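import Pool.Agent.H92.SF.LUT
import Pool.Agent.H62.HIL.Dim2

/-!
MP_70ba79_ag, THEOREM S, board sfu_modules, row DAT: elementary consequences.
-/

set_option autoImplicit false

namespace Pool.Agent.H35.SFU

open MvPolynomial
open Pool.Agent.H84.SM (dp cr dt)
open Pool.Agent.H3.SF Pool.Agent.H92.SF

section

variable {k F : Type} [Field k] [Field F] [Algebra k F]

theorem eu_apply (u : Fin 3 → F) (dd : Fin 3 → Derivation k F F) (a : F) :
    eu u dd a = ∑ l, u l * dd l a := by
  unfold eu
  rw [Fin.sum_univ_three, Fin.sum_univ_three]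
  simp only [Derivation.add_apply, Derivation.smul_apply, smul_eq_mul]

theorem dd_eu {u : Fin 3 → F} {dd : Fin 3 → Derivation k F F}
    (du : ∀ l j, dd l (u j) = if l = j then 1 else 0)
    (comm : ∀ l l' a, dd l (dd l' a) = dd l' (dd l a)) (l : Fin 3) (a : F) :
    dd l (eu u dd a) = dd l a + eu u dd (dd l a) := by
  rw [eu_apply, eu_apply, map_sum]
  have h1 : ∀ j, dd l (u j * dd j a) = u j * dd j (dd l a) + (if l = j then dd j a else 0) := by
    intro j
    rw [Derivation.leibniz, smul_eq_mul, smul_eq_mul, du l j, comm l j a]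
    split_ifs <;> ring
  rw [Finset.sum_congr rfl fun j _ => h1 j, Finset.sum_add_distrib, Finset.sum_ite_eq,
    if_pos (Finset.mem_univ _), add_comm]

theorem dd_intCast (D : Derivation k F F) (t : ℤ) : D (t : F) = 0 := by
  have h1 : (t : F) = algebraMap k F (t : k) := by rw [map_intCast]
  rw [h1, Derivation.map_algebraMap]

theorem hm_dd {u : Fin 3 → F} {dd : Fin 3 → Derivation k F F}
    (du : ∀ l j, dd l (u j) = if l = j then 1 else 0)
    (comm : ∀ l l' a, dd l (dd l' a) = dd l' (dd l a)) (l : Fin 3) {t : ℤ} {a : F}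
    (h : Hm k (eu u dd) t a) : Hm k (eu u dd) (t - 1) (dd l a) := by
  unfold Hm at *
  have h1 := dd_eu du comm l a
  rw [h, Derivation.leibniz, smul_eq_mul, smul_eq_mul, dd_intCast, mul_zero, add_zero] at h1
  have h2 : eu u dd (dd l a) = (t : F) * dd l a - dd l a := by rw [h1]; ring
  rw [h2]; push_cast; ring

theorem dd_aeval {u : Fin 3 → F} {dd : Fin 3 → Derivation k F F}
    (du : ∀ l j, dd l (u j) = if l = j then 1 else 0) (i : Fin 3) (J : MvPolynomial (Fin 3) k) :
    dd i (aeval u J) = aeval u (pderiv i J) := by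
  induction J using MvPolynomial.induction_on with
  | C a => rw [algHom_C, Derivation.map_algebraMap, pderiv_C, map_zero]
  | add p q hp hq => rw [map_add, map_add, hp, hq, map_add, map_add]
  | mul_X p j hp =>
    rw [map_mul, aeval_X, Derivation.leibniz, hp, du, Derivation.leibniz, pderiv_X, map_add,
      smul_eq_mul, smul_eq_mul, smul_eq_mul, smul_eq_mul, map_mul, map_mul, aeval_X]
    by_cases h : i = j
    · rw [if_pos h, h, Pi.single_eq_same, map_one]
    · rw [if_neg h, Pi.single_eq_of_ne (Ne.symm h), map_zero]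

theorem itg_aeval (u : Fin 3 → F) (f : MvPolynomial (Fin 3) k) : Itg k u (aeval u f) :=
  ((aeval u : MvPolynomial (Fin 3) k →ₐ[k] F) :
    MvPolynomial (Fin 3) k →+* F).isIntegralElem_map

end

theorem pf_DAT : T_DAT := by
  intro k F _ _ _ _ _ u dd δ j0 c0 J m G h
  have hinj : Function.Injective (aeval u : MvPolynomial (Fin 3) k → F) := h.ind
  have hchar : CharZero F := charZero_of_injective_algebraMap (algebraMap k F).injective
  have hu1 : ∀ i, Hm k (eu u dd) 1 (u i) := by
    intro i
    unfold Hm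
    rw [eu_apply, Finset.sum_congr rfl fun l _ => by rw [h.du l i], Int.cast_one, one_mul]
    simp
  have hG1 : ∀ l, Hm k (eu u dd) ((m : ℤ) - 1) (dd l G) := fun l => hm_dd h.du h.comm l h.hom
  have hG2 : ∀ i l, Hm k (eu u dd) ((m : ℤ) - 2) (dd i (dd l G)) := by
    intro i l
    have h1 := hm_dd h.du h.comm i (hG1 l)
    have h2 : (m : ℤ) - 1 - 1 = (m : ℤ) - 2 := by ring
    rwa [h2] at h1
  have hg : ∀ l, Itg k u (aeval u J * dd l G) := fun l => h.Jd l G h.itg
  have hm : m ≠ 0 := by
    have := h.big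
    omega
  refine ⟨⟨?_, ?_, ?_⟩, ?_, ?_, ?_, hu1, Pool.Agent.H62.HIL.hm_aeval hu1 h.Jh, hG1, hG2, hg, ?_⟩
  · have h1 : eu u dd G = ((m : ℤ) : F) * G := h.hom
    rw [eu_apply, Int.cast_natCast] at h1
    rw [← h1]
    rfl
  · intro i
    have h1 : eu u dd (dd i G) = (((m : ℤ) - 1 : ℤ) : F) * dd i G := hG1 i
    rw [eu_apply] at h1
    push_cast at h1
    show ∑ j, dd i (dd j G) * u j = ((m : F) - 1) * dd i G
    rw [← h1]
    refine Finset.sum_congr rfl fun j _ => ?_
    rw [h.comm i j G, mul_comm]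
  · intro i j
    exact h.comm i j G
  · intro i hi
    have h1 : (X i : MvPolynomial (Fin 3) k) = 0 := by
      apply hinj
      show aeval u (X i) = aeval u 0
      rw [aeval_X, hi, map_zero]
    exact X_ne_zero i h1
  · intro h0
    apply h.J0
    apply hinj
    show aeval u J = aeval u 0
    rw [h0, map_zero]
  · exact mul_ne_zero (Nat.cast_ne_zero.2 hm) h.ne
  · intro i l
    have h1 : Itg k u (aeval u J * dd i (aeval u J * dd l G)) := h.Jd i _ (hg l)
    have h2 : Itg k u (aeval u (pderiv i J) * (aeval u J * dd l G)) :=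
      (Bb k u).mul_mem (itg_aeval u _) (hg l)
    have h3 : aeval u J ^ 2 * dd i (dd l G) = aeval u J * dd i (aeval u J * dd l G) -
        aeval u (pderiv i J) * (aeval u J * dd l G) := by
      rw [Derivation.leibniz, smul_eq_mul, smul_eq_mul, dd_aeval h.du]
      ring
    rw [h3]
    exact (Bb k u).sub_mem h1 h2

end Pool.Agent.H35.SFU
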